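import Mathlib
import Pool.Agent.MP_00fd70_lc.Main

open FirstOrder

universe u v

namespace Pool.Agent.Results.MP_00fd70_lc.PerfectRegular

open Pool.Agent.MP_00fd70_lc

/-- For every field `P`, every `n ≥ 2` and every `k`, the free algebra on `k` generators of the
variety of associative `P`-algebras with `x₁ ⋯ xₙ = 0` exists, is logically homogeneous, and is
logically separable in the variety. -/
theorem result (P : Type u) [Field P] (n : ℕ) (hn : 2 ≤ n) (k : ℕ) :
    (∃ (W : Type u) (_ : NonUnitalRing W) (_ : Module P W) (_ : IsScalarTower P W W)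
      (_ : SMulCommClass P W W) (x : Fin k → W), IsFree P n W x) ∧
    ∀ (W : Type u) [NonUnitalRing W] [Module P W] [IsScalarTower P W W] [SMulCommClass P W W]
      (x : Fin k → W), IsFree P n W x →
        Homogeneous P W ∧
        ∀ (H : Type v) [NonUnitalRing H] [Module P H] [IsScalarTower P H H]
          [SMulCommClass P H H], IsNil n H → Isotypic P W H → Nonempty (W ≃[Lang P] H) :=
  ⟨⟨Wn P n k, inferInstance, inferInstance, inferInstance, inferInstance, _,
      exists_free n k (by omega)⟩,
    fun _ _ _ _ _ _ hW => ⟨hW.homogeneous hn, fun H _ _ _ _ _ hH => hW.separable hn H hH⟩⟩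

end Pool.Agent.Results.MP_00fd70_lc.PerfectRegular
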